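import Mathlib

/-!
# Algorithms which use finitely many values and a table
-/

set_option autoImplicit false

open Nat.Partrec (Code)

namespace Pool.Agent.K7.H28.DP

/-- the list of the values of the program `c` at the elements of the list `L` -/
def run : List ℕ → Code →. List ℕ
  | [] => fun _ => Part.some []
  | e :: L => fun c => (c.eval e).bind fun a => (run L c).map fun l => a :: l

theorem run_partrec (L : List ℕ) : Partrec (run L) := by
  induction L with
  | nil => exact (Computable.const ([] : List ℕ)).partrec
  | cons e L ih =>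
    have h1 : Partrec fun c : Code => c.eval e :=
      Nat.Partrec.Code.eval_part.comp Computable.id (Computable.const e)
    have h2 : Partrec₂ fun (c : Code) (a : ℕ) => (run L c).map fun l => a :: l := by
      have h3 : Partrec fun p : Code × ℕ => run L p.1 := ih.comp Computable.fst
      exact h3.map (Computable.list_cons.comp (Computable.snd.comp Computable.fst) Computable.snd)
    exact h1.bind h2

theorem mem_run {c : Code} {f : ℕ → ℕ} (L : List ℕ) (h : ∀ e ∈ L, f e ∈ c.eval e) :
    L.map f ∈ run L c := by
  induction L with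
  | nil => exact Part.mem_some _
  | cons e L ih =>
    refine Part.mem_bind (h e (by simp)) ?_
    exact Part.mem_map _ (ih fun e' he' => h e' (by simp [he']))

/-- membership in a finite table -/
def tbl {α : Type} [DecidableEq α] (S : List α) (x : α) : Bool := decide (x ∈ S)

theorem tbl_iff {α : Type} [DecidableEq α] (S : List α) (x : α) : tbl S x = true ↔ x ∈ S := by
  unfold tbl
  exact decide_eq_true_iff

theorem primrec_tbl {α : Type} [Primcodable α] [DecidableEq α] (S : List α) :
    Primrec (tbl S) := by
  induction S with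
  | nil =>
    have : tbl ([] : List α) = fun _ => false := by
      funext x
      unfold tbl
      simp
    rw [this]
    exact Primrec.const false
  | cons a S ih =>
    have h1 : tbl (a :: S) = fun x => (x == a) || tbl S x := by
      funext x
      unfold tbl
      by_cases h : x = a
      · simp [h]
      · simp [h]
    rw [h1]
    exact Primrec.or.comp (Primrec.beq.comp Primrec.id (Primrec.const a)) ih

/-- the algorithm -/
theorem algorithm {α : Type} (P : α → Prop) (rel : α → α → Prop) (L : List ℕ) (sg : α → ℕ → ℕ)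
    (hle : ∀ a e, sg a e ≤ 1)
    (hrel : ∀ a a' b b', P a → P a' → P b → P b' → (∀ e ∈ L, sg a e = sg a' e) →
      (∀ e ∈ L, sg b e = sg b' e) → rel a' b' → rel a b) :
    ∃ A : Code × Code →. Bool, Partrec A ∧ ∀ a b, P a → P b → ∀ c c' : Code,
      (∀ e ∈ L, sg a e ∈ c.eval e) → (∀ e ∈ L, sg b e ∈ c'.eval e) →
      ∃ r : Bool, r ∈ A (c, c') ∧ (r = true ↔ rel a b) := by
  classical
  obtain ⟨T, hT⟩ : ∃ T : Set (List ℕ × List ℕ), T = {p | ∃ a b, P a ∧ P b ∧ rel a b ∧
    p.1 = L.map (sg a) ∧ p.2 = L.map (sg b)} := ⟨_, rfl⟩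
  have hfin : T.Finite := by
    have h1 : ({l : List ℕ | l.length = L.length ∧ ∀ x ∈ l, x ∈ ({0, 1} : Set ℕ)}).Finite := by
      have h2 : ({0, 1} : Set ℕ).Finite := Set.toFinite _
      have := List.finite_length_eq (↥({0, 1} : Set ℕ)) L.length
      refine (this.image fun l : List ↥({0, 1} : Set ℕ) => l.map Subtype.val).subset ?_
      rintro l ⟨hl1, hl2⟩
      refine ⟨l.pmap (fun x hx => ⟨x, hx⟩) hl2, ?_, ?_⟩
      · simpa using hl1
      · simp [List.map_pmap]
    refine (h1.prod h1).subset ?_
    rw [hT]
    rintro ⟨l, l'⟩ ⟨a, b, _, _, _, h3, h4⟩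
    have h5 : ∀ a, L.map (sg a) ∈ {l : List ℕ | l.length = L.length ∧ ∀ x ∈ l,
        x ∈ ({0, 1} : Set ℕ)} := by
      intro a
      refine ⟨by simp, fun x hx => ?_⟩
      obtain ⟨e, _, rfl⟩ := List.mem_map.1 hx
      have := hle a e
      interval_cases sg a e <;> simp
    change l = _ at h3
    change l' = _ at h4
    rw [h3, h4]
    exact ⟨h5 a, h5 b⟩
  obtain ⟨S, hS⟩ : ∃ S : List (List ℕ × List ℕ), S = hfin.toFinset.toList := ⟨_, rfl⟩
  have hmem : ∀ p, p ∈ S ↔ p ∈ T := fun p => by
    rw [hS, Finset.mem_toList, Set.Finite.mem_toFinset]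
  refine ⟨fun p => (run L p.1).bind fun l => (run L p.2).map fun l' => tbl S (l, l'),
    ?_, ?_⟩
  · have h1 : Partrec fun p : Code × Code => run L p.1 := (run_partrec L).comp Computable.fst
    have h2 : Partrec₂ fun (p : Code × Code) (l : List ℕ) =>
        (run L p.2).map fun l' => tbl S (l, l') := by
      have h3 : Partrec fun q : (Code × Code) × List ℕ => run L q.1.2 :=
        (run_partrec L).comp (Computable.snd.comp Computable.fst)
      have h4 : Computable fun w : ((Code × Code) × List ℕ) × List ℕ => (w.1.2, w.2) :=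
        Computable.pair (Computable.snd.comp Computable.fst) Computable.snd
      exact h3.map ((primrec_tbl S).to_comp.comp h4)
    exact h1.bind h2
  · intro a b ha hb c c' hc hc'
    refine ⟨tbl S (L.map (sg a), L.map (sg b)), ?_, ?_⟩
    · refine Part.mem_bind (mem_run L hc) ?_
      exact Part.mem_map _ (mem_run L hc')
    · rw [tbl_iff, hmem, hT]
      constructor
      · rintro ⟨a', b', ha', hb', hr, h1, h2⟩
        have h3 : ∀ x y : α, L.map (sg x) = L.map (sg y) → ∀ e ∈ L, sg x e = sg y e := by
          intro x y hxy e he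
          exact List.map_inj_left.1 hxy e he
        exact hrel a a' b b' ha ha' hb hb' (h3 _ _ h1) (h3 _ _ h2) hr
      · intro hr
        exact ⟨a, b, ha, hb, hr, rfl, rfl⟩

end Pool.Agent.K7.H28.DP
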