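import Pool.Agent.K7.H28.DP.D1
import Pool.Agent.K7.H28.GS.L11

/-!
# Rational grids
-/

set_option autoImplicit false

open Set Filter Topology Metric Function
open scoped ContDiff

noncomputable section

namespace Pool.Agent.K7.H28.DP

open Pool.Agent.Y522 Pool.Agent.K7.H28.GS

variable {n : ℕ}

/-- a point of the grid of mesh `δ` near `y`, with smaller coordinates -/
theorem near_grid {δ : ℝ} (hδ : 0 < δ) (y : E n) : ∃ z : Fin n → ℤ, (∀ i, |δ * z i| ≤ |y i|) ∧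
    ‖(WithLp.toLp 2 fun i => δ * (z i : ℝ) : E n) - y‖ ≤ Real.sqrt n * δ := by
  have key : ∀ t : ℝ, ∃ z : ℤ, |δ * z| ≤ |t| ∧ |δ * z - t| ≤ δ := by
    intro t
    rcases le_total 0 t with ht | ht
    · refine ⟨⌊t / δ⌋, ?_, ?_⟩
      · have h1 : 0 ≤ (⌊t / δ⌋ : ℝ) := by
          have : 0 ≤ ⌊t / δ⌋ := Int.floor_nonneg.2 (by positivity)
          exact_mod_cast this
        have h2 : (⌊t / δ⌋ : ℝ) ≤ t / δ := Int.floor_le _
        rw [abs_of_nonneg (by positivity), abs_of_nonneg ht]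
        rw [le_div_iff₀ hδ] at h2
        linarith
      · have h2 : (⌊t / δ⌋ : ℝ) ≤ t / δ := Int.floor_le _
        have h3 : t / δ < ⌊t / δ⌋ + 1 := Int.lt_floor_add_one _
        rw [le_div_iff₀ hδ] at h2
        rw [div_lt_iff₀ hδ] at h3
        rw [abs_le]
        constructor <;> nlinarith
    · refine ⟨⌈t / δ⌉, ?_, ?_⟩
      · have h1 : (⌈t / δ⌉ : ℝ) ≤ 0 := by
          have : ⌈t / δ⌉ ≤ 0 := Int.ceil_le.2 (by
            rw [Int.cast_zero, div_le_iff₀ hδ]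
            linarith)
          exact_mod_cast this
        have h2 : t / δ ≤ (⌈t / δ⌉ : ℝ) := Int.le_ceil _
        rw [abs_of_nonpos (by nlinarith), abs_of_nonpos ht]
        rw [div_le_iff₀ hδ] at h2
        linarith
      · have h2 : t / δ ≤ (⌈t / δ⌉ : ℝ) := Int.le_ceil _
        have h3 : (⌈t / δ⌉ : ℝ) < t / δ + 1 := Int.ceil_lt_add_one _
        rw [div_le_iff₀ hδ] at h2
        have h4 : (⌈t / δ⌉ : ℝ) * δ < t + δ := by
          have h5 := mul_lt_mul_of_pos_right h3 hδ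
          have h6 : (t / δ + 1) * δ = t + δ := by field_simp
          linarith
        rw [abs_le]
        constructor <;> nlinarith
  choose z hz1 hz2 using fun i => key (y i)
  refine ⟨z, hz1, ?_⟩
  rw [EuclideanSpace.norm_eq]
  have h1 : ∑ i, ‖((WithLp.toLp 2 fun i => δ * (z i : ℝ) : E n) - y) i‖ ^ 2 ≤ n * δ ^ 2 := by
    have h2 : ∀ i ∈ (Finset.univ : Finset (Fin n)),
        ‖((WithLp.toLp 2 fun i => δ * (z i : ℝ) : E n) - y) i‖ ^ 2 ≤ δ ^ 2 := by
      intro i _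
      have h3 : ((WithLp.toLp 2 fun i => δ * (z i : ℝ) : E n) - y) i = δ * z i - y i := rfl
      rw [h3, Real.norm_eq_abs]
      exact pow_le_pow_left₀ (abs_nonneg _) (hz2 i) 2
    have h4 := Finset.sum_le_card_nsmul _ _ _ h2
    rw [Finset.card_univ, Fintype.card_fin, nsmul_eq_mul] at h4
    exact h4
  calc Real.sqrt _ ≤ Real.sqrt (n * δ ^ 2) := Real.sqrt_le_sqrt h1
    _ = Real.sqrt n * δ := by
      rw [Real.sqrt_mul (Nat.cast_nonneg _), Real.sqrt_sq hδ.le]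

theorem abs_coord_le (y : E n) (i : Fin n) : |y i| ≤ ‖y‖ := by
  have := PiLp.norm_apply_le y i
  rwa [Real.norm_eq_abs] at this

/-- the grid is finite -/
theorem grid_finite {δ R : ℝ} (hδ : 0 < δ) :
    ({z : Fin n → ℤ | ∀ i, |δ * z i| ≤ R} : Set (Fin n → ℤ)).Finite := by
  have h1 : ({z : Fin n → ℤ | ∀ i, |δ * z i| ≤ R} : Set (Fin n → ℤ)) ⊆
      Set.pi univ fun _ => Icc (-⌈R / δ⌉) ⌈R / δ⌉ := by
    intro z hz i _
    have h2 := hz i
    rw [abs_mul, abs_of_pos hδ, mul_comm, ← le_div_iff₀ hδ, abs_le] at h2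
    have h3 : (z i : ℝ) ≤ ⌈R / δ⌉ := h2.2.trans (Int.le_ceil _)
    have h4 : (-⌈R / δ⌉ : ℝ) ≤ z i := (neg_le_neg (Int.le_ceil _)).trans h2.1
    exact ⟨by exact_mod_cast h4, by exact_mod_cast h3⟩
  exact (Set.Finite.pi fun _ => Set.finite_Icc _ _).subset h1

end Pool.Agent.K7.H28.DP
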