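import Pool.Agent.K7.H28.DP.D1

/-!
# Algorithms which use finitely many approximate values and a table
-/

set_option autoImplicit false

open Nat.Partrec (Code)

namespace Pool.Agent.K7.H28.DP

theorem mem_run2 {c : Code} {R : ℕ → ℕ → Prop} (L : List ℕ)
    (h : ∀ e ∈ L, ∃ v ∈ c.eval e, R e v) : ∃ l ∈ run L c, List.Forall₂ R L l := by
  induction L with
  | nil => exact ⟨[], Part.mem_some _, List.Forall₂.nil⟩
  | cons e L ih =>
    obtain ⟨v, hv, hR⟩ := h e (by simp)
    obtain ⟨l, hl, hl2⟩ := ih fun e' he' => h e' (by simp [he'])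
    exact ⟨v :: l, Part.mem_bind hv (Part.mem_map _ hl), List.Forall₂.cons hR hl2⟩

theorem forall2_both {α : Type} {R : α → ℕ → ℕ → Prop} {a a' : α} {L l : List ℕ}
    (h : List.Forall₂ (R a) L l) (h' : List.Forall₂ (R a') L l) :
    ∀ e ∈ L, ∃ v, R a e v ∧ R a' e v := by
  induction h with
  | nil => intro e he; simp at he
  | cons hab _ ih =>
    intro e he
    obtain ⟨h1, h2⟩ := List.forall₂_cons.1 h'
    rcases List.mem_cons.1 he with rfl | he
    · exact ⟨_, hab, h1⟩
    · exact ih h2 e he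

theorem forall2_finite {R : ℕ → ℕ → Prop} (L : List ℕ) (h : ∀ e ∈ L, {v | R e v}.Finite) :
    {l | List.Forall₂ R L l}.Finite := by
  induction L with
  | nil =>
    refine (Set.finite_singleton ([] : List ℕ)).subset fun l hl => ?_
    exact List.forall₂_nil_left_iff.1 hl
  | cons e L ih =>
    have h1 := (h e (by simp)).prod (ih fun e' he' => h e' (by simp [he']))
    refine (h1.image fun p : ℕ × List ℕ => p.1 :: p.2).subset ?_
    intro l hl
    obtain ⟨v, l', hv, hl', rfl⟩ := List.forall₂_cons_left_iff.1 hl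
    exact ⟨(v, l'), ⟨hv, hl'⟩, rfl⟩

/-- the algorithm: `R a e v` means that `v` is an admissible answer to the question `e` about `a` -/
theorem algorithm2 {α : Type} (P : α → Prop) (rel : α → α → Prop) (L : List ℕ)
    (R : α → ℕ → ℕ → Prop) (hfin : ∀ e ∈ L, {v | ∃ a, P a ∧ R a e v}.Finite)
    (hrel : ∀ a a' b b', P a → P a' → P b → P b' → (∀ e ∈ L, ∃ v, R a e v ∧ R a' e v) →
      (∀ e ∈ L, ∃ v, R b e v ∧ R b' e v) → rel a' b' → rel a b) :
    ∃ A : Code × Code →. Bool, Partrec A ∧ ∀ a b, P a → P b → ∀ c c' : Code,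
      (∀ e ∈ L, ∃ v ∈ c.eval e, R a e v) → (∀ e ∈ L, ∃ v ∈ c'.eval e, R b e v) →
      ∃ r : Bool, r ∈ A (c, c') ∧ (r = true ↔ rel a b) := by
  classical
  obtain ⟨T, hT⟩ : ∃ T : Set (List ℕ × List ℕ), T = {p | ∃ a b, P a ∧ P b ∧ rel a b ∧
    List.Forall₂ (R a) L p.1 ∧ List.Forall₂ (R b) L p.2} := ⟨_, rfl⟩
  have hfin : T.Finite := by
    have h1 := forall2_finite (R := fun e v => ∃ a, P a ∧ R a e v) L hfin
    refine (h1.prod h1).subset ?_
    rw [hT]
    rintro ⟨l, l'⟩ ⟨a, b, ha, hb, _, h3, h4⟩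
    exact ⟨h3.imp fun e v h => ⟨a, ha, h⟩, h4.imp fun e v h => ⟨b, hb, h⟩⟩
  obtain ⟨S, hS⟩ : ∃ S : List (List ℕ × List ℕ), S = hfin.toFinset.toList := ⟨_, rfl⟩
  have hmem : ∀ p, p ∈ S ↔ p ∈ T := fun p => by
    rw [hS, Finset.mem_toList, Set.Finite.mem_toFinset]
  refine ⟨fun p => (run L p.1).bind fun l => (run L p.2).map fun l' => tbl S (l, l'),
    ?_, ?_⟩
  · have h1 : Partrec fun p : Code × Code => run L p.1 := (run_partrec L).comp Computable.fst
    have h2 : Partrec₂ fun (p : Code × Code) (l : List ℕ) =>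
        (run L p.2).map fun l' => tbl S (l, l') := by
      have h3 : Partrec fun q : (Code × Code) × List ℕ => run L q.1.2 :=
        (run_partrec L).comp (Computable.snd.comp Computable.fst)
      have h4 : Computable fun w : ((Code × Code) × List ℕ) × List ℕ => (w.1.2, w.2) :=
        Computable.pair (Computable.snd.comp Computable.fst) Computable.snd
      exact h3.map ((primrec_tbl S).to_comp.comp h4)
    exact h1.bind h2
  · intro a b ha hb c c' hc hc'
    obtain ⟨l, hl, hl2⟩ := mem_run2 L hc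
    obtain ⟨l', hl', hl2'⟩ := mem_run2 L hc'
    refine ⟨tbl S (l, l'), ?_, ?_⟩
    · exact Part.mem_bind hl (Part.mem_map _ hl')
    · rw [tbl_iff, hmem, hT]
      constructor
      · rintro ⟨a', b', ha', hb', hr, h1, h2⟩
        exact hrel a a' b b' ha ha' hb hb' (forall2_both hl2 h1) (forall2_both hl2' h2) hr
      · intro hr
        exact ⟨a, b, ha, hb, hr, hl2, hl2'⟩

end Pool.Agent.K7.H28.DP
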